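import Pool.Agent.Helper8_HK.Stmt1

/-! IWA: every matrix is upper triangular up to `flipM`, scalars and the Iwahori group. -/

namespace Pool.Agent.HK.H76

open Polynomial

theorem ino_mono {F : Type} [Field F] {k l : ℤ} {x : Kinf F} (h : InO k x) (hl : l ≤ k) :
    InO l x := fun i hi => h i (lt_of_lt_of_le hi hl)

theorem ino_pow (hLAU : LAUStmt) {F : Type} [Field F] {l : ℤ} {x : Kinf F} (k : ℤ)
    (h : InO l x) : InO (k + l) ((unif F) ^ k * x) := by
  obtain ⟨-, -, -, -, -, -, h7, -⟩ := hLAU F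
  intro i hi
  rw [h7]
  exact h _ (by linarith)

/-- Splitting off an upper triangular matrix. -/
theorem upper (hLAU : LAUStmt) (hMTX : MTXStmt) {F : Type} [Field F] (a b c d : Kinf F)
    (_hdet : a * d - b * c ≠ 0) (hd : d ≠ 0) (hc : InO 1 (c / d)) (k : ℤ) (e : Kinf F)
    (he : InO 0 e) (he0 : HahnSeries.coeff e 0 ≠ 0)
    (hk : (a - b * (c / d)) / d = (unif F) ^ k * e) :
    mat e 0 (c / d) 1 ∈ (Iwahori : Set (GLK F)) ∧
    mat a b c d = mat ((unif F) ^ k) (b / d) 0 1 * scal d * mat e 0 (c / d) 1 := by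
  obtain ⟨m1, -, m3, -, -, -⟩ := hMTX F
  have hu : unif F ≠ 0 := (hLAU F).2.2.2.2.2.1
  have hne : e ≠ 0 := by
    rintro rfl
    exact he0 (by simp)
  have hdd : e * 1 - 0 * (c / d) ≠ 0 := by simpa using hne
  have hpk : (unif F) ^ k ≠ 0 := zpow_ne_zero _ hu
  constructor
  · obtain ⟨q1, q2, q3, q4⟩ := m1 e 0 (c / d) 1 hdd
    refine ⟨?_, ?_, ?_, ?_, ?_, ?_⟩
    · rw [q1]; exact he
    · rw [q2]; intro i _; simp
    · rw [q3]; exact hc
    · rw [q4]; intro i hi
      rw [HahnSeries.coeff_one, if_neg (by omega)]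
    · rw [q1]; exact he0
    · rw [q4]; simp
  · have e1 : mat ((unif F) ^ k) (b / d) 0 1 * scal d = mat ((unif F) ^ k * d) b 0 d := by
      rw [scal, m3 _ _ _ _ _ _ _ _ (by simpa using hpk) (by simpa using hd)]
      congr 1
      · ring
      · field_simp
        ring
      · ring
      · ring
    rw [e1, m3 _ _ _ _ _ _ _ _ (by simpa using ⟨hpk, hd⟩) hdd]
    have e2 : a = (unif F) ^ k * d * e + b * (c / d) := by
      have : (unif F) ^ k * d * e = (unif F) ^ k * e * d := by ring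
      rw [this, ← hk]
      field_simp
      ring
    congr 1
    · ring
    · field_simp
      ring
    · ring

theorem iwa (hLAU : LAUStmt) (hMTX : MTXStmt) : IWAStmt := by
  intro F _ g
  obtain ⟨m1, m2, m3, m4, m5, m6, m7, m8, m9, m10, m11, -⟩ := hMTX F
  obtain ⟨-, -, -, -, -, hu, h7, h8, h9, h10, -⟩ := hLAU F
  obtain ⟨hg, hdet⟩ := m2 g
  obtain ⟨a, ha⟩ : ∃ a, a = g 0 0 := ⟨_, rfl⟩
  obtain ⟨b, hb⟩ : ∃ a, a = g 0 1 := ⟨_, rfl⟩
  obtain ⟨c, hc⟩ : ∃ a, a = g 1 0 := ⟨_, rfl⟩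
  obtain ⟨d, hd⟩ : ∃ a, a = g 1 1 := ⟨_, rfl⟩
  rw [← ha, ← hb, ← hc, ← hd] at hg hdet
  have exk : ∀ x : Kinf F, x ≠ 0 → ∃ (k : ℤ) (u : Kinf F), x = (unif F) ^ k * u ∧ InO 0 u ∧
    HahnSeries.coeff u 0 ≠ 0 := h9
  by_cases hcase : d ≠ 0 ∧ InO 1 (c / d)
  · obtain ⟨hd0, hcd⟩ := hcase
    have hne : (a - b * (c / d)) / d ≠ 0 := by
      have : (a - b * (c / d)) / d = (a * d - b * c) / d ^ 2 := by
        field_simp
      rw [this]
      exact div_ne_zero hdet (pow_ne_zero _ hd0)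
    obtain ⟨k, e, hk, he, he0⟩ := exk _ hne
    obtain ⟨hI, hM⟩ := upper hLAU hMTX a b c d hdet hd0 hcd k e he he0 hk
    exact ⟨k, b / d, d, _, hd0, hI, Or.inl (by rw [hg]; exact hM)⟩
  · have hc0 : c ≠ 0 := by
      rintro rfl
      apply hcase
      have hd0 : d ≠ 0 := by
        rintro rfl
        exact hdet (by ring)
      exact ⟨hd0, by intro i _; simp⟩
    have hdc : InO 0 (d / c) := by
      by_cases hd0 : d = 0
      · rw [hd0]; intro i _; simp
      have hn : ¬ InO 1 (c / d) := fun h => hcase ⟨hd0, h⟩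
      obtain ⟨k, u, hk, hu0, hu1⟩ := exk (c / d) (div_ne_zero hc0 hd0)
      have hk0 : k ≤ 0 := by
        by_contra hcon
        push Not at hcon
        apply hn
        rw [hk]
        exact ino_mono (ino_pow hLAU k hu0) (by omega)
      have e1 : d / c = (unif F) ^ (-k) * u⁻¹ := by
        rw [← inv_div c d, hk, mul_inv, zpow_neg]
      rw [e1]
      exact ino_mono (ino_pow hLAU (-k) (h10 u hu0 hu1).1) (by omega)
    have hdet' : (b * unif F) * c - a * (d * unif F) ≠ 0 := by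
      have : (b * unif F) * c - a * (d * unif F) = - (unif F * (a * d - b * c)) := by ring
      rw [this]
      exact neg_ne_zero.mpr (mul_ne_zero hu hdet)
    have hcd' : InO 1 (d * unif F / c) := by
      have : d * unif F / c = (unif F) ^ (1 : ℤ) * (d / c) := by
        rw [zpow_one]; ring
      rw [this]
      exact ino_mono (ino_pow hLAU 1 hdc) (by omega)
    have hne : (b * unif F - a * (d * unif F / c)) / c ≠ 0 := by
      have : (b * unif F - a * (d * unif F / c)) / c =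
          ((b * unif F) * c - a * (d * unif F)) / c ^ 2 := by
        field_simp
      rw [this]
      exact div_ne_zero hdet' (pow_ne_zero _ hc0)
    obtain ⟨k, e, hk, he, he0⟩ := exk _ hne
    obtain ⟨hI, hM⟩ := upper hLAU hMTX (b * unif F) a (d * unif F) c hdet' hc0 hcd' k e he he0 hk
    have hgf : g * flipM = mat (b * unif F) a (d * unif F) c := by
      rw [hg, flipM, m3 _ _ _ _ _ _ _ _ hdet (by simpa using hu)]
      congr 1 <;> ring
    obtain ⟨i, hi⟩ : ∃ i, i = mat e 0 (d * unif F / c) 1 := ⟨_, rfl⟩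
    rw [← hi] at hI hM
    refine ⟨k, a / c, c * (unif F)⁻¹, flipM⁻¹ * i * flipM, mul_ne_zero hc0 (inv_ne_zero hu),
      m10 i hI, Or.inr ?_⟩
    have s1 : scal (unif F) * scal (unif F)⁻¹ = (1 : GLK F) := by
      rw [m7 _ _ hu (inv_ne_zero hu), mul_inv_cancel₀ hu]
      exact m5
    have e1 : g * flipM * flipM * scal (unif F)⁻¹ = g := by
      rw [mul_assoc g, m11, mul_assoc g, s1, mul_one]
    rw [← e1, hgf, hM]
    have c1 : ∀ x : GLK F, scal (unif F)⁻¹ * x = x * scal (unif F)⁻¹ :=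
      fun x => (m6 _ x (inv_ne_zero hu)).symm
    have c2 : ∀ x : GLK F, scal c * x = x * scal c := fun x => (m6 _ x hc0).symm
    rw [← m7 _ _ hc0 (inv_ne_zero hu)]
    calc mat ((unif F) ^ k) (a / c) 0 1 * scal c * i * flipM * scal (unif F)⁻¹
        = mat ((unif F) ^ k) (a / c) 0 1 * (scal c * flipM) * (flipM⁻¹ * i * flipM) *
            scal (unif F)⁻¹ := by group
      _ = mat ((unif F) ^ k) (a / c) 0 1 * (flipM * scal c) *
            (scal (unif F)⁻¹ * (flipM⁻¹ * i * flipM)) := by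
          rw [c2, c1]; group
      _ = _ := by group

end Pool.Agent.HK.H76
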