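import Pool.Agent.Helper8_HK.Stmt1
import Pool.Agent.Helper8_HK.Stmt2

/-! LAT: the linear algebra theorem from its two cases. -/

namespace Pool.Agent.HK.H76

theorem lat (hRAD : RADStmt) (hLAP : LAPStmt) : LATStmt := by
  intro F L k _ _ _ _ _ _ _ hfin τ hτ E h1 h2 h3 h4 x
  by_cases hq : ((Fintype.card F : ℕ) : k) = 0
  · exact hLAP F L k hfin τ hτ hq E h1 h2 h3 h4 x
  · refine hRAD F L k hfin τ hτ hq E h3 (fun a y ha => ?_) h4 x
    have := h1 a 0 y ha
    rwa [map_zero, add_zero] at this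

end Pool.Agent.HK.H76
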