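import Pool.Agent.Helper76_HK.IWA

/-! RED: the half line is a fundamental domain for `GL_2(A)`. -/

namespace Pool.Agent.HK.H76

open Polynomial

/-- The property to be proved for every matrix. -/
def Rd {F : Type} [Field F] (g : GLK F) : Prop :=
  ∃ (γ : GLA F) (j : ℤ) (z : Kinf F) (i : GLK F), j ≤ 1 ∧ z ≠ 0 ∧ i ∈ Iwahori ∧
    (g = toK γ * mat ((unif F) ^ j) 0 0 1 * scal z * i ∨
      g = toK γ * mat ((unif F) ^ j) 0 0 1 * flipM * scal z * i)

theorem rd_scal (hMTX : MTXStmt) {F : Type} [Field F] {g : GLK F} (h : Rd g) (w : Kinf F)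
    (hw : w ≠ 0) (k : GLK F) (hk : k ∈ Iwahori) : Rd (g * scal w * k) := by
  obtain ⟨m1, m2, m3, m4, m5, m6, m7, m8, m9, m10, m11, -⟩ := hMTX F
  obtain ⟨γ, j, z, i, hj, hz, hi, h⟩ := h
  have key : ∀ x : GLK F, x * scal z * i * scal w * k = x * scal (z * w) * (i * k) := by
    intro x
    rw [← m7 _ _ hz hw]
    have : i * scal w = scal w * i := m6 _ _ hw
    calc x * scal z * i * scal w * k = x * scal z * (i * scal w) * k := by group
      _ = _ := by rw [this]; group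
  refine ⟨γ, j, z * w, i * k, hj, mul_ne_zero hz hw, m8 _ _ hi hk, ?_⟩
  rcases h with h | h
  · left; rw [h]; exact key _
  · right; rw [h]; exact key _

theorem rd_flip (hLAU : LAUStmt) (hMTX : MTXStmt) {F : Type} [Field F] {g : GLK F} (h : Rd g) :
    Rd (g * flipM) := by
  obtain ⟨m1, m2, m3, m4, m5, m6, m7, m8, m9, m10, m11, -⟩ := hMTX F
  have hu : unif F ≠ 0 := (hLAU F).2.2.2.2.2.1
  obtain ⟨γ, j, z, i, hj, hz, hi, h⟩ := h
  have key : ∀ x : GLK F, x * scal z * i * flipM = x * flipM * scal z * (flipM⁻¹ * i * flipM) := by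
    intro x
    have : flipM * scal z = scal z * (flipM : GLK F) := m6 _ _ hz
    calc x * scal z * i * flipM = x * (scal z * flipM) * (flipM⁻¹ * i * flipM) := by group
      _ = _ := by rw [← this]; group
  rcases h with h | h
  · refine ⟨γ, j, z, flipM⁻¹ * i * flipM, hj, hz, m10 _ hi, Or.inr ?_⟩
    rw [h]; exact key _
  · refine ⟨γ, j, unif F * z, flipM⁻¹ * i * flipM, hj, mul_ne_zero hu hz, m10 _ hi, Or.inl ?_⟩
    rw [h, key, ← m7 _ _ hu hz, ← m11]
    group

theorem rd_left {F : Type} [Field F] {g : GLK F} (h : Rd g) (δ : GLA F) : Rd (toK δ * g) := by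
  obtain ⟨γ, j, z, i, hj, hz, hi, h⟩ := h
  refine ⟨δ * γ, j, z, i, hj, hz, hi, ?_⟩
  rcases h with h | h
  · left; rw [h, map_mul]; simp only [mul_assoc]
  · right; rw [h, map_mul]; simp only [mul_assoc]

theorem one_mem_iwahori (hMTX : MTXStmt) {F : Type} [Field F] : (1 : GLK F) ∈ Iwahori := by
  obtain ⟨m1, m2, m3, m4, m5, -⟩ := hMTX F
  rw [← m5]
  obtain ⟨q1, q2, q3, q4⟩ := m1 1 0 0 1 (by simp)
  have h1 : InO 0 (1 : Kinf F) := by
    intro i hi
    rw [HahnSeries.coeff_one, if_neg (by omega)]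
  refine ⟨?_, ?_, ?_, ?_, ?_, ?_⟩
  · rw [q1]; exact h1
  · rw [q2]; intro i _; simp
  · rw [q3]; intro i _; simp
  · rw [q4]; exact h1
  · rw [q1]; simp
  · rw [q4]; simp

theorem unip_mem_iwahori (hMTX : MTXStmt) {F : Type} [Field F] {x : Kinf F} (hx : InO 0 x) :
    (mat 1 x 0 1 : GLK F) ∈ Iwahori := by
  obtain ⟨m1, m2, m3, m4, m5, -⟩ := hMTX F
  obtain ⟨q1, q2, q3, q4⟩ := m1 1 x 0 1 (by simp)
  have h1 : InO 0 (1 : Kinf F) := by
    intro i hi
    rw [HahnSeries.coeff_one, if_neg (by omega)]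
  refine ⟨?_, ?_, ?_, ?_, ?_, ?_⟩
  · rw [q1]; exact h1
  · rw [q2]; exact hx
  · rw [q3]; intro i _; simp
  · rw [q4]; exact h1
  · rw [q1]; simp
  · rw [q4]; simp

/-- The upper right entry matters only modulo `π^k O`. -/
theorem mat_shift (hLAU : LAUStmt) (hMTX : MTXStmt) {F : Type} [Field F] (k : ℤ) (y : Kinf F)
    (hy : InO k y) : ∃ i ∈ (Iwahori : Set (GLK F)),
    mat ((unif F) ^ k) y 0 1 = mat ((unif F) ^ k) 0 0 1 * scal 1 * i := by
  obtain ⟨m1, m2, m3, m4, m5, -⟩ := hMTX F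
  have hu : unif F ≠ 0 := (hLAU F).2.2.2.2.2.1
  have hpk : (unif F) ^ k ≠ 0 := zpow_ne_zero _ hu
  refine ⟨mat 1 ((unif F) ^ (-k) * y) 0 1, unip_mem_iwahori hMTX ?_, ?_⟩
  · exact ino_mono (ino_pow hLAU (-k) hy) (by omega)
  · have e0 : scal 1 = (1 : GLK F) := m5
    rw [e0, mul_one, m3 _ _ _ _ _ _ _ _ (by simpa using hpk) (by simp)]
    congr 1
    · ring
    · rw [← mul_assoc, ← zpow_add₀ hu]
      simp
    · ring
    · ring

theorem rd_trans (hMTX : MTXStmt) {F : Type} [Field F] (k : ℤ) (u : Kinf F)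
    (hu : unif F ≠ 0) (a : F[X])
    (h : Rd (mat ((unif F) ^ k) (u - emb F a) 0 1)) : Rd (mat ((unif F) ^ k) u 0 1) := by
  obtain ⟨m1, m2, m3, m4, m5, m6, m7, m8, m9, m10, m11, m12, m13, m14, -⟩ := hMTX F
  have hpk : (unif F) ^ k ≠ 0 := zpow_ne_zero _ hu
  obtain ⟨γ, -, hγ⟩ := m14 a 1
  have := rd_left h γ
  rw [hγ, m3 _ _ _ _ _ _ _ _ (by simp) (by simpa using hpk)] at this
  convert this using 2 <;> ring

theorem rd_base (hLAU : LAUStmt) (hMTX : MTXStmt) {F : Type} [Field F] (k : ℤ) (hk : k ≤ 1)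
    (u : Kinf F) : Rd (mat ((unif F) ^ k) u 0 1) := by
  have hu : unif F ≠ 0 := (hLAU F).2.2.2.2.2.1
  obtain ⟨a, ha⟩ := (hLAU F).2.2.2.2.2.2.2.2.2.2.1 u
  apply rd_trans hMTX k u hu a
  obtain ⟨i, hi, h⟩ := mat_shift hLAU hMTX k _ (ino_mono ha hk)
  refine ⟨1, k, 1, i, hk, one_ne_zero, hi, Or.inl ?_⟩
  rw [map_one, one_mul]
  exact h

theorem rd_all (hLAU : LAUStmt) (hMTX : MTXStmt) {F : Type} [Field F] (n : ℕ) :
    ∀ k : ℤ, k ≤ n → ∀ u : Kinf F, Rd (mat ((unif F) ^ k) u 0 1) := by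
  have hu : unif F ≠ 0 := (hLAU F).2.2.2.2.2.1
  obtain ⟨w, hw⟩ : ∃ w : GLA F, toK w = (mat 0 1 1 0 : GLK F) := by
    obtain ⟨m1, m2, m3, m4, m5, m6, m7, m8, m9, m10, m11, m12, m13, -⟩ := hMTX F
    obtain ⟨γ, g1, g2, g3, g4⟩ := m13 0 1 1 0 (by simp)
    refine ⟨γ, ?_⟩
    obtain ⟨q1, q2, q3, q4⟩ := m12 γ
    rw [(m2 (toK γ)).1, q1, q2, q3, q4, g1, g2, g3, g4]
    simp
  obtain ⟨m1, m2, m3, m4, m5, m6, m7, m8, m9, m10, m11, m12, m13, -⟩ := hMTX F
  obtain ⟨l1, l2, l3, l4, l5, l6, l7, l8, l9, l10, l11, -⟩ := hLAU F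
  have hww : (mat 0 1 1 0 : GLK F) * mat 0 1 1 0 = 1 := by
    rw [m3 _ _ _ _ _ _ _ _ (by simp) (by simp), ← m5]
    congr 1 <;> ring
  induction n with
  | zero => intro k hk u; exact rd_base hLAU hMTX k (by simp at hk; omega) u
  | succ n ih =>
    intro k hk u
    by_cases hk1 : k ≤ 1
    · exact rd_base hLAU hMTX k hk1 u
    have hpk : (unif F) ^ k ≠ 0 := zpow_ne_zero _ hu
    obtain ⟨a, ha⟩ := l11 u
    apply rd_trans hMTX k u hu a
    obtain ⟨y, hy⟩ : ∃ y, y = u - emb F a := ⟨_, rfl⟩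
    rw [← hy] at ha ⊢
    by_cases hyk : InO k y
    · obtain ⟨i, hi, h⟩ := mat_shift hLAU hMTX k y hyk
      rw [h]
      apply rd_scal hMTX _ _ one_ne_zero _ hi
      refine ⟨w, 1 - k, (unif F) ^ (k - 1), 1, by omega, zpow_ne_zero _ hu,
        one_mem_iwahori hMTX, Or.inr ?_⟩
      have hp1 : (unif F) ^ (1 - k) ≠ 0 := zpow_ne_zero _ hu
      have hp2 : (unif F) ^ (k - 1) ≠ 0 := zpow_ne_zero _ hu
      rw [hw, mul_one, m3 _ _ _ _ _ _ _ _ (by simp) (by simpa using hp1), flipM,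
        m3 _ _ _ _ _ _ _ _ (by simpa using hp1) (by simpa using hu), scal,
        m3 _ _ _ _ _ _ _ _ (by simpa using ⟨hu, hp1⟩) (by simpa using hp2)]
      have e1 : unif F * (unif F) ^ (k - 1) = (unif F) ^ k := by
        rw [← zpow_one_add₀ hu]; congr 1; ring
      have e2 : (unif F) ^ (1 - k) * (unif F) ^ (k - 1) = 1 := by
        rw [← zpow_add₀ hu]; simp
      congr 1
      · linear_combination -e1
      · ring
      · ring
      · linear_combination -e2
    · have hy0 : y ≠ 0 := by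
        rintro rfl
        exact hyk (by intro i _; simp)
      obtain ⟨j, e, hj, he, he0⟩ := l9 y hy0
      have hjk : j < k := by
        by_contra hcon
        push Not at hcon
        apply hyk
        rw [hj]
        exact ino_mono (ino_pow hLAU j he) (by omega)
      have hj1 : 1 ≤ j := by
        by_contra hcon
        push Not at hcon
        have := ha j (by omega)
        rw [hj, l7] at this
        simp at this
        exact he0 this
      have hpj : (unif F) ^ j ≠ 0 := zpow_ne_zero _ hu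
      have hene : e ≠ 0 := by
        rintro rfl
        exact he0 (by simp)
      obtain ⟨i1, i2⟩ := l10 e he he0
      obtain ⟨i3, i4⟩ := l8 0 0 e⁻¹ e⁻¹ i1 i1
      simp only [add_zero] at i3 i4
      have hInO : InO 0 (-(e⁻¹ * e⁻¹)) := by
        intro s hs
        rw [HahnSeries.coeff_neg, i3 s hs, neg_zero]
      have hne0 : HahnSeries.coeff (-(e⁻¹ * e⁻¹)) 0 ≠ 0 := by
        rw [HahnSeries.coeff_neg, i4, i2]
        simpa using he0
      have hdet : (0 : Kinf F) * y - 1 * (unif F) ^ k ≠ 0 := by simpa using hpk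
      have hcd : InO 1 ((unif F) ^ k / y) := by
        have : (unif F) ^ k / y = (unif F) ^ (k - j) * e⁻¹ := by
          rw [hj, zpow_sub₀ hu]
          field_simp
        rw [this]
        exact ino_mono (ino_pow hLAU (k - j) i1) (by omega)
      have hkk : ((0 : Kinf F) - 1 * ((unif F) ^ k / y)) / y =
          (unif F) ^ (k - 2 * j) * (-(e⁻¹ * e⁻¹)) := by
        have : (unif F) ^ (k - 2 * j) = (unif F) ^ k / ((unif F) ^ j * (unif F) ^ j) := by
          rw [zpow_sub₀ hu, two_mul, zpow_add₀ hu]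
        rw [this, hj]
        field_simp
        ring
      obtain ⟨hI, hM⟩ := upper hLAU hMTX 0 1 ((unif F) ^ k) y hdet hy0 hcd (k - 2 * j) _
        hInO hne0 hkk
      have hR : Rd (mat 0 1 ((unif F) ^ k) y) := by
        rw [hM]
        apply rd_scal hMTX _ _ hy0 _ hI
        exact ih _ (by push_cast at hk; omega) _
      have := rd_left hR w
      rw [hw, m3 _ _ _ _ _ _ _ _ (by simp) hdet] at this
      convert this using 2 <;> ring

theorem red (hIWA : IWAStmt) (hLAU : LAUStmt) (hMTX : MTXStmt) : REDStmt := by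
  intro F _ g
  have key : ∀ (k : ℤ) (u : Kinf F), Rd (mat ((unif F) ^ k) u 0 1) := fun k u =>
    rd_all hLAU hMTX k.toNat k (Int.self_le_toNat k) u
  obtain ⟨k, u, z, i, hz, hi, h⟩ := hIWA F g
  rcases h with h | h
  · rw [h]; exact rd_scal hMTX (key k u) z hz i hi
  · rw [h]; exact rd_scal hMTX (rd_flip hLAU hMTX (key k u)) z hz i hi

end Pool.Agent.HK.H76
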