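import Pool.Agent.Helper64_HK.CFX

/-! REV: the reversed polynomial. -/

namespace Pool.Agent.HK.H76

open MvPolynomial

theorem revE_apply {p r : ℕ} [NeZero r] (α : Ix r →₀ ℕ) (j : Ix r) :
    revE p α j = p - 1 - α j := by
  simp [revE]

theorem revE_revE {p r : ℕ} [NeZero r] (α : Ix r →₀ ℕ) (h : ∀ j, α j < p) :
    revE p (revE p α) = α := by
  ext j
  rw [revE_apply, revE_apply]
  have := h j
  omega

theorem NN_add {p r : ℕ} [NeZero r] [hp : Fact p.Prime] (α : Ix r →₀ ℕ) (h : ∀ j, α j < p) :
    NN p (revE p α) + NN p α = p ^ (4 * r) - 1 := by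
  rw [← H64.NN_rev_zero (p := p) (r := r)]
  unfold NN
  rw [← Finset.sum_add_distrib]
  apply Finset.sum_congr rfl
  intro j _
  rw [← add_mul, revE_apply, revE_apply]
  congr 1
  have := h j
  simp
  omega

theorem redu_rev {p r : ℕ} [NeZero r] [hp : Fact p.Prime] {k : Type} [Field k]
    (P : MvPolynomial (Ix r) k) : Redu p (revP p P) := by
  classical
  intro β hβ
  have h1 := MvPolynomial.support_sum hβ
  rw [Finset.mem_biUnion] at h1
  obtain ⟨γ, hγ, h2⟩ := h1
  have h3 := MvPolynomial.support_monomial_subset h2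
  rw [Finset.mem_singleton] at h3
  rw [h3]
  exact fun j => H64.revE_lt γ j

theorem coeff_rev {p r : ℕ} [NeZero r] [hp : Fact p.Prime] {k : Type} [Field k]
    (P : MvPolynomial (Ix r) k) (hP : Redu p P) (α : Ix r →₀ ℕ) (hα : ∀ j, α j < p) :
    MvPolynomial.coeff α (revP p P) = MvPolynomial.coeff (revE p α) P := by
  classical
  unfold revP
  rw [MvPolynomial.coeff_sum]
  have key : ∀ β ∈ P.support, MvPolynomial.coeff α
      (MvPolynomial.monomial (revE p β) (MvPolynomial.coeff β P)) =
      if β = revE p α then MvPolynomial.coeff (revE p α) P else 0 := by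
    intro β hβ
    rw [MvPolynomial.coeff_monomial]
    by_cases hc : β = revE p α
    · rw [if_pos hc, hc, if_pos (revE_revE α hα)]
    · rw [if_neg hc, if_neg]
      intro h
      apply hc
      rw [← h, revE_revE β (hP β hβ)]
  rw [Finset.sum_congr rfl key, Finset.sum_ite_eq']
  by_cases h : revE p α ∈ P.support
  · rw [if_pos h]
  · rw [if_neg h]
    exact (MvPolynomial.notMem_support_iff.mp h).symm

theorem rev_thm : REVStmt := by
  classical
  intro p r hp hr L k _ _ _ _ hcard σ P hP
  refine ⟨redu_rev P, fun α hα => coeff_rev P hP α hα, fun h0 hs x => ?_⟩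
  have hcfx := H64.cfx p r L k hcard σ P hP
  by_cases hx : x = 0
  · have h1 := (H64.cfx p r L k hcard σ (revP p P) (redu_rev P)).1
    have h2 := hcfx.2.2
    rw [hx, inv_zero, ← h1, ← hcfx.1, h0,
      coeff_rev P hP 0 (fun j => by simpa using hp.out.pos), h2, hs, neg_zero]
  · have hev : evL p σ (revP p P) x =
        ∑ α ∈ P.support, MvPolynomial.coeff α P * (σ x) ^ (NN p (revE p α)) := by
      unfold revP
      have e1 : ∀ Q : MvPolynomial (Ix r) k, evL p σ Q x = MvPolynomial.eval
        (fun j : Ix r => (σ x) ^ (p ^ (j.2.val + r * (j.1 : ℕ)))) Q := fun _ => rfl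
      rw [e1, map_sum]
      apply Finset.sum_congr rfl
      intro α _
      rw [MvPolynomial.eval_monomial]
      congr 1
      rw [Finsupp.prod_fintype _ _ (fun j => pow_zero _)]
      unfold NN
      rw [← Finset.prod_pow_eq_pow_sum]
      refine Finset.prod_congr rfl (fun j _ => ?_)
      rw [← pow_mul, mul_comm]
    rw [hev, H64.evL_eq]
    apply Finset.sum_congr rfl
    intro α hα
    congr 1
    have hsx : σ x ≠ 0 := by
      rw [Ne, _root_.map_eq_zero]; exact hx
    have h1 : (σ x) ^ (p ^ (4 * r) - 1) = 1 := by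
      rw [← map_pow, ← hcard, FiniteField.pow_card_sub_one_eq_one x hx, map_one]
    rw [← NN_add α (hP α hα), pow_add] at h1
    rw [map_inv₀, inv_pow]
    exact eq_inv_of_mul_eq_one_left h1

end Pool.Agent.HK.H76
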