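import Pool.Agent.Helper8_HK.Stmt2

/-! STR: translation invariance componentwise. -/

namespace Pool.Agent.HK.H76

open MvPolynomial

theorem coeff_comp {r : ℕ} {k : Type} [Field k] (d : ZMod r → ℕ)
    (P : MvPolynomial (Ix r) k) (β : Ix r →₀ ℕ) (h : ∀ s, ld β s = d s) :
    MvPolynomial.coeff β (comp d P) = MvPolynomial.coeff β P := by
  classical
  unfold comp
  rw [MvPolynomial.coeff_sum]
  by_cases hβ : β ∈ P.support
  · rw [Finset.sum_eq_single β]
    · simp
    · intro γ _ hγ
      rw [MvPolynomial.coeff_monomial, if_neg hγ]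
    · intro h1
      exact absurd (Finset.mem_filter.mpr ⟨hβ, h⟩) h1
  · rw [MvPolynomial.notMem_support_iff.mp hβ]
    apply Finset.sum_eq_zero
    intro γ hγ
    rw [MvPolynomial.coeff_monomial, if_neg]
    rintro rfl
    exact hβ (Finset.mem_filter.mp hγ).1

theorem coeff_comp_zero {r : ℕ} {k : Type} [Field k] (d : ZMod r → ℕ)
    (P : MvPolynomial (Ix r) k) (β : Ix r →₀ ℕ) (h : ¬ ∀ s, ld β s = d s) :
    MvPolynomial.coeff β (comp d P) = 0 := by
  classical
  unfold comp
  rw [MvPolynomial.coeff_sum]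
  apply Finset.sum_eq_zero
  intro γ hγ
  rw [MvPolynomial.coeff_monomial, if_neg]
  rintro rfl
  exact h (Finset.mem_filter.mp hγ).2

theorem comp_sum {r : ℕ} {k : Type} [Field k] (d : ZMod r → ℕ) {ι : Type}
    (s : Finset ι) (f : ι → MvPolynomial (Ix r) k) :
    comp d (∑ i ∈ s, f i) = ∑ i ∈ s, comp d (f i) := by
  ext β
  rw [MvPolynomial.coeff_sum]
  by_cases h : ∀ s, ld β s = d s
  · rw [coeff_comp d _ β h, MvPolynomial.coeff_sum]
    exact Finset.sum_congr rfl fun i _ => (coeff_comp d _ β h).symm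
  · rw [coeff_comp_zero d _ β h]
    exact (Finset.sum_eq_zero fun i _ => coeff_comp_zero d _ β h).symm

/-- `DD κ` maps the component of level degrees `D + κ` to the component of level degrees `D`. -/
theorem comp_DD (hTAY : TAYStmt) {r : ℕ} [NeZero r] {k : Type} [Field k] (D : ZMod r → ℕ)
    (κ : ZMod r →₀ ℕ) (P : MvPolynomial (Ix r) k) :
    comp D (DD κ P) = DD κ (comp (fun s => D s + κ s) P) := by
  obtain ⟨-, t2, -, -, -, -, -, t8⟩ := hTAY r k
  obtain ⟨R, hR⟩ : ∃ R, R = P - comp (fun s => D s + κ s) P := ⟨_, rfl⟩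
  have hP : P = comp (fun s => D s + κ s) P + R := by rw [hR]; ring
  have hDD : DD κ P = DD κ (comp (fun s => D s + κ s) P) + DD κ R := by
    rw [← t2, ← hP]
  ext β
  by_cases h : ∀ s, ld β s = D s
  · rw [coeff_comp D _ β h, hDD, MvPolynomial.coeff_add]
    suffices hs : MvPolynomial.coeff β (DD κ R) = 0 by rw [hs, add_zero]
    by_contra hne
    obtain ⟨α, hα, hl⟩ := t8 κ R β (MvPolynomial.mem_support_iff.mpr hne)
    apply MvPolynomial.mem_support_iff.mp hα
    rw [hR, MvPolynomial.coeff_sub, coeff_comp, sub_self]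
    intro s
    rw [hl s, h s]
  · rw [coeff_comp_zero D _ β h]
    by_contra hne
    obtain ⟨α, hα, hl⟩ := t8 κ _ β (MvPolynomial.mem_support_iff.mpr (Ne.symm hne))
    apply h
    intro s
    have h1 : ∀ s, ld α s = D s + κ s := by
      by_contra h2
      exact MvPolynomial.mem_support_iff.mp hα (coeff_comp_zero _ _ α h2)
    have h2 := hl s
    rw [h1 s] at h2
    omega

theorem DD_zero' (hTAY : TAYStmt) {r : ℕ} [NeZero r] {k : Type} [Field k]
    (κ : ZMod r →₀ ℕ) : DD κ (0 : MvPolynomial (Ix r) k) = 0 := by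
  obtain ⟨-, t2, -⟩ := hTAY r k
  have := t2 κ 0 0
  rw [add_zero] at this
  exact left_eq_add.mp this

theorem str (hTAY : TAYStmt) : STRStmt := by
  classical
  intro r _ k _ P hinv D S hS hz
  obtain ⟨t1, -, -, t4, -⟩ := hTAY r k
  have h1 := t1 (fun _ => 1) P
  have h2 : (MvPolynomial.aeval (fun j : Ix r => X j + C ((fun _ : ZMod r => (1 : k)) j.2)) P :
      MvPolynomial (Ix r) k) = P := by
    simp only [map_one]
    exact hinv
  rw [h2] at h1
  -- `∑_{κ ∈ supp, κ ≠ 0} DD κ P = 0`
  have h3 : ∑ κ ∈ (tay P).support.erase 0, DD κ P = 0 := by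
    simp only [one_pow, Finset.prod_const_one, C_1, one_mul] at h1
    by_cases h0 : (0 : ZMod r →₀ ℕ) ∈ (tay P).support
    · rw [← Finset.add_sum_erase _ _ h0, t4] at h1
      exact left_eq_add.mp h1
    · have : P = 0 := by
        rw [← t4 P]
        exact MvPolynomial.notMem_support_iff.mp h0
      apply Finset.sum_eq_zero
      intro κ _
      rw [this]
      exact DD_zero' hTAY κ
  have h4 : ∑ κ ∈ (tay P).support.erase 0, DD κ (comp (fun s => D s + κ s) P) = 0 := by
    have := congrArg (comp D) h3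
    rw [comp_sum] at this
    have h0 : comp D (0 : MvPolynomial (Ix r) k) = 0 := by
      unfold comp; simp
    rw [h0] at this
    rw [← this]
    exact Finset.sum_congr rfl fun κ _ => (comp_DD hTAY D κ P).symm
  -- both sums agree
  have key : ∀ κ, κ ∉ S ∨ κ ∉ (tay P).support.erase 0 → κ ≠ 0 →
      DD κ (comp (fun s => D s + κ s) P) = 0 := by
    intro κ h hκ
    rcases h with h | h
    · rw [hz κ hκ h]; exact DD_zero' hTAY κ
    · rw [← comp_DD hTAY]
      have : DD κ P = 0 := by
        have : κ ∉ (tay P).support := fun h' => h (Finset.mem_erase.mpr ⟨hκ, h'⟩)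
        exact MvPolynomial.notMem_support_iff.mp this
      rw [this]
      unfold comp; simp
  have e1 : ∑ κ ∈ S, DD κ (comp (fun s => D s + κ s) P) =
      ∑ κ ∈ S ∪ (tay P).support.erase 0, DD κ (comp (fun s => D s + κ s) P) := by
    apply Finset.sum_subset Finset.subset_union_left
    intro κ hκ hn
    apply key κ (Or.inl hn)
    rintro rfl
    rcases Finset.mem_union.mp hκ with h | h
    · exact hn h
    · exact (Finset.mem_erase.mp h).1 rfl
  have e2 : ∑ κ ∈ (tay P).support.erase 0, DD κ (comp (fun s => D s + κ s) P) =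
      ∑ κ ∈ S ∪ (tay P).support.erase 0, DD κ (comp (fun s => D s + κ s) P) := by
    apply Finset.sum_subset Finset.subset_union_right
    intro κ hκ hn
    apply key κ (Or.inr hn)
    rintro rfl
    rcases Finset.mem_union.mp hκ with h | h
    · exact hS h
    · exact (Finset.mem_erase.mp h).1 rfl
  rw [e1, ← e2, h4]

end Pool.Agent.HK.H76
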