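import Pool.Agent.Helper7_HK.REP

/-! TRL, INV. -/

namespace Pool.Agent.HK.H76

open MvPolynomial

theorem sig_pow {p r : ℕ} {F L k : Type} [Field F] [Field L]
    [Field k] [Fintype F] [Algebra F L] (hF : Fintype.card F = p ^ r)
    (σ : L →+* k) (b : F) (s i : ℕ) :
    (σ (algebraMap F L b)) ^ (p ^ (s + r * i)) = (σ (algebraMap F L b)) ^ (p ^ s) := by
  induction i with
  | zero => simp
  | succ i ih =>
    have h : b ^ (p ^ r) = b := by rw [← hF]; exact FiniteField.pow_card b
    have e : s + r * (i + 1) = r + (s + r * i) := by ring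
    rw [e, pow_add, pow_mul, ← map_pow σ, ← map_pow (algebraMap F L), h]
    exact ih

theorem trl : TRLStmt := by
  intro p r _ _ F L k _ _ _ _ _ _ _ hF σ P b x
  unfold evL
  have h : ∀ Q : MvPolynomial (Ix r) k, MvPolynomial.eval
      (fun j : Ix r => (σ x) ^ (p ^ (j.2.val + r * (j.1 : ℕ))))
      (MvPolynomial.aeval (fun j : Ix r => X j + C ((σ (algebraMap F L b)) ^ (p ^ j.2.val))) Q) =
      MvPolynomial.eval (fun j : Ix r => (σ x) ^ (p ^ (j.2.val + r * (j.1 : ℕ))) +
        (σ (algebraMap F L b)) ^ (p ^ j.2.val)) Q := by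
    intro Q
    induction Q using MvPolynomial.induction_on with
    | C a => simp
    | add P Q h1 h2 => rw [map_add, map_add, map_add, h1, h2]
    | mul_X P j h1 =>
      rw [map_mul, map_mul, map_mul, h1]; simp
  rw [h P]
  congr 1
  congr 1
  funext j
  rw [map_add, add_pow_char_pow, sig_pow hF]

theorem inv_thm : INVStmt := by
  classical
  intro p r _ _ F L k _ _ _ _ _ _ _ hF hL σ P hP hinv α hα
  obtain ⟨a, ha⟩ := IsCyclic.exists_generator (α := Fˣ)
  have hord : orderOf a = p ^ r - 1 := by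
    rw [orderOf_eq_card_of_forall_mem_zpowers ha, Nat.card_eq_fintype_card,
      Fintype.card_units, hF]
  obtain ⟨e, he⟩ : ∃ e : (Ix r →₀ ℕ) → ℕ, ∀ α, e α = ∑ s : ZMod r, ld α s * p ^ s.val :=
    ⟨_, fun _ => rfl⟩
  obtain ⟨y, hy⟩ : ∃ y : k, y = σ (algebraMap F L (a : F)) := ⟨_, rfl⟩
  have hNN : ∀ α : Ix r →₀ ℕ, y ^ NN p α = y ^ e α := by
    intro α
    rw [he, NN, ← Finset.prod_pow_eq_pow_sum, Fintype.prod_prod_type_right,
      ← Finset.prod_pow_eq_pow_sum]
    apply Finset.prod_congr rfl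
    intro s _
    unfold ld
    rw [Finset.sum_mul, ← Finset.prod_pow_eq_pow_sum]
    apply Finset.prod_congr rfl
    intro i _
    rw [mul_comm (α (i, s)), pow_mul, mul_comm (α (i, s)), pow_mul]
    congr 1
    rw [hy]
    exact sig_pow hF σ (a : F) s.val i
  obtain ⟨Q, hQ⟩ : ∃ Q : MvPolynomial (Ix r) k,
      Q = ∑ α ∈ P.support, MvPolynomial.monomial α (MvPolynomial.coeff α P * y ^ e α) := ⟨_, rfl⟩
  have hcQ : ∀ β ∈ P.support, MvPolynomial.coeff β Q = MvPolynomial.coeff β P * y ^ e β := by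
    intro β hβ
    rw [hQ, MvPolynomial.coeff_sum, Finset.sum_eq_single β]
    · simp
    · intro γ _ hγ
      rw [MvPolynomial.coeff_monomial, if_neg hγ]
    · intro h; exact absurd hβ h
  have hQr : Redu p Q := by
    intro β hβ
    rw [hQ] at hβ
    have h1 := MvPolynomial.support_sum hβ
    rw [Finset.mem_biUnion] at h1
    obtain ⟨γ, hγ, h2⟩ := h1
    have h3 := MvPolynomial.support_monomial_subset h2
    rw [Finset.mem_singleton] at h3
    rw [h3]
    exact hP γ hγ
  have hPQ : P = Q := by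
    apply (H7.rep p r L k hL σ).2 P Q hP hQr
    intro x
    rw [← hinv (a : F) x a.ne_zero, H7.evL_eq, hQ, H7.evL_sum]
    apply Finset.sum_congr rfl
    intro β _
    rw [H7.evL_mon, map_mul, mul_pow, ← hy, hNN]
    ring
  have h1 := hcQ α hα
  rw [← hPQ] at h1
  have h2 : MvPolynomial.coeff α P ≠ 0 := MvPolynomial.mem_support_iff.mp hα
  have h3 : y ^ e α = 1 := by
    have h4 : MvPolynomial.coeff α P * (y ^ e α - 1) = 0 := by linear_combination -h1
    rcases mul_eq_zero.mp h4 with h | h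
    · exact absurd h h2
    · exact sub_eq_zero.mp h
  have h5 : (a : F) ^ e α = 1 := by
    apply (algebraMap F L).injective
    apply σ.injective
    rw [map_pow, map_pow, ← hy, h3, map_one, map_one]
  rw [← he, ← hord]
  apply orderOf_dvd_of_pow_eq_one
  apply Units.ext
  rw [Units.val_pow_eq_pow_val, h5, Units.val_one]

end Pool.Agent.HK.H76
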